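import Pool.Agent.Lib.MP_9bd952_ag.Main

namespace Pool.Agent.Results.MP_9bd952_ag.BettiBound

/-- A connected affine manifold with first Betti number at most `r` has at most `(32/5)^r`
non-constant holomorphic maps to the plane without `0` and `1`. -/
theorem result (m : ℕ) (Y : Set (Fin m → ℂ))
    (hA : ∃ S : Set (MvPolynomial (Fin m) ℂ), Y = {y | ∀ P ∈ S, MvPolynomial.eval y P = 0})
    (hS : ∀ p ∈ Y, ∃ U : Set (Fin m → ℂ), IsOpen U ∧ p ∈ U ∧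
      ∃ (k : ℕ) (F : (Fin m → ℂ) → (Fin k → ℂ)), DifferentiableOn ℂ F U ∧
        (∀ x ∈ U, Function.Surjective ⇑(fderiv ℂ F x)) ∧ Y ∩ U = U ∩ F ⁻¹' {0})
    (hc : IsConnected Y) (y0 : Y) (r : ℕ)
    (hr : Module.rank ℤ (Additive (FundamentalGroup Y y0) →+ ℤ) ≤ r) (Q : Set (Y → ℂ))
    (hQ : Q = {g : Y → ℂ | (∀ y, g y ≠ 0 ∧ g y ≠ 1) ∧ (∃ a b, g a ≠ g b) ∧
      ∀ p : Y, ∃ U : Set (Fin m → ℂ), IsOpen U ∧ (p : Fin m → ℂ) ∈ U ∧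
        ∃ h : (Fin m → ℂ) → ℂ, DifferentiableOn ℂ h U ∧
          ∀ y : Y, (y : Fin m → ℂ) ∈ U → h y = g y}) :
    Q.Finite ∧ (Q.ncard : ℝ) ≤ (32 / 5) ^ r :=
  Pool.Agent.Lib.MP_9bd952_ag.main hA hS hc y0 hr Q hQ

end Pool.Agent.Results.MP_9bd952_ag.BettiBound
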